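import Mathlib
import Pool.Agent.W_MP_818d98_co.Upper

namespace Pool.Agent.Results.MP_818d98_co.NearOptimal

open Pool.Agent.W_MP_818d98_co

/-- In each of the three models the broadcast time of the complete graph on `n` vertices is
`⌈log₂ n⌉` or `⌈log₂ n⌉ + 1`, and it is `⌈log₂ n⌉` whenever `n ≤ (25/32) · 2 ^ ⌈log₂ n⌉`. -/
theorem result (m : Model) (n : ℕ) (hn : 1 ≤ n) :
    (Nat.clog 2 n : ℕ∞) ≤ broadcastTime m (⊤ : SimpleGraph (Fin n)) ∧
    broadcastTime m (⊤ : SimpleGraph (Fin n)) ≤ (Nat.clog 2 n + 1 : ℕ) ∧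
    (32 * n ≤ 25 * 2 ^ Nat.clog 2 n →
      broadcastTime m (⊤ : SimpleGraph (Fin n)) = (Nat.clog 2 n : ℕ∞)) := by
  have : Nonempty (Fin n) := ⟨⟨0, by omega⟩⟩
  have h0 : (Nat.clog 2 n : ℕ∞) ≤ broadcastTime m (⊤ : SimpleGraph (Fin n)) := by
    have := clog_le_broadcastTime m (⊤ : SimpleGraph (Fin n))
    rwa [Fintype.card_fin] at this
  have h1 : n ≤ 2 ^ Nat.clog 2 n := Nat.le_pow_clog (by norm_num) n
  refine ⟨h0, ?_, fun h => le_antisymm (upper m n _ hn h) h0⟩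
  refine upper m n (Nat.clog 2 n + 1) hn ?_
  rw [pow_succ]
  omega

end Pool.Agent.Results.MP_818d98_co.NearOptimal
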