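import Mathlib
import Pool.Agent.W_MP_818d98_co.Small
import Pool.Agent.W_MP_818d98_co.NonAdaptive

namespace Pool.Agent.Results.MP_818d98_co.NonAdaptive16

open Pool.Agent.W_MP_818d98_co

/-- The least `n` for which every graph with `n` vertices has broadcast time greater than
`⌈log₂ n⌉` in the non-adaptive model is `16`. -/
theorem result : IsLeast {n : ℕ | 1 ≤ n ∧ ∀ G : SimpleGraph (Fin n),
    (Nat.clog 2 n : ℕ∞) < broadcastTime Model.nonAdaptive G} 16 := by
  constructor
  · refine ⟨by norm_num, fun G => ?_⟩
    have h : Nat.clog 2 16 = 4 := by decide +kernel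
    rw [h]
    exact four_lt_broadcastTime (by simp) G
  · rintro n ⟨h1, hn⟩
    by_contra hcon
    have h15 : n ≤ 15 := by omega
    exact absurd (small Model.nonAdaptive n h1 h15) (not_le.2 (hn ⊤))

end Pool.Agent.Results.MP_818d98_co.NonAdaptive16
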